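import Pool.Agent.SST.S.SumMap

/-!
# SST-E-Rooted: rooted triangulations up to isomorphism
* `map_htp`, `map_hasSSC`: transport lists by `List.map e`; an elementary step of `T` becomes an
  elementary step of `T.map e` (`map_append`, `map_a`, `map_f`); `Relation.EqvGen` transport; the
  converse with `e.symm` (`map_map`, `e.trans e.symm = refl`, `T.map (Equiv.refl _) = T`).
* `RTri.HasSSC` is well defined by `map_hasSSC`.
* `free`: if `T` is connected, `T.map π = T` and `π r = r` then `π = 1`: the set `{d : π d = d}` is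
  non-empty and closed under `a`, `f` (`map_a`: `π (a d) = a (π d)`).
* `card_fibre`: for a set `P` of rooted triangulations (classes): every class of `RTri n g` has exactly
  `(6n)!` representatives `(T, r)` (orbit of a free action of `Equiv.Perm (Fin (6n))`), so
  `Nat.card {q // P q} * (6n)! = Nat.card {x : pairs // P [x]}`; for `P = HasSSC L` the number of pairs
  is `6n * #{T}`.
* `ratio_eq`: for `n ≥ 1` the ratio for classes equals the ratio for labelled triangulations.
-/

namespace SST

open Filter Topology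

/-- Rooted triangulations (with dart set `Fin (6n)`, root = second component) of genus `g`. -/
def Pairs (n g : ℕ) : Type := {x : Tri (Fin (6 * n)) × Fin (6 * n) // x.1 ∈ Trn n g}

/-- Isomorphism of rooted triangulations. -/
def rootSetoid (n g : ℕ) : Setoid (Pairs n g) where
  r x y := ∃ π : Equiv.Perm (Fin (6 * n)), y.1.1 = x.1.1.map π ∧ y.1.2 = π x.1.2
  iseqv := by
    refine ⟨?_, ?_, ?_⟩
    · intro x
      exact ⟨Equiv.refl _, Tri.ext' (by ext d; rfl) (by ext d; rfl), rfl⟩
    · rintro x y ⟨π, h, h'⟩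
      refine ⟨π.symm, ?_, by simp [h']⟩
      rw [h]
      exact Tri.ext' (by ext d; simp [Tri.map]) (by ext d; simp [Tri.map])
    · rintro x y z ⟨π, h, h'⟩ ⟨π', k, k'⟩
      refine ⟨π.trans π', ?_, by simp [h', k']⟩
      rw [k, h]
      exact Tri.ext' (by ext d; simp [Tri.map]) (by ext d; simp [Tri.map])

/-- Isomorphism classes of rooted triangulations with `2n` faces and genus `g`. -/
def RTri (n g : ℕ) : Type := Quotient (rootSetoid n g)

private theorem rooted_symm {D D' : Type} (T : Tri D) (e : D ≃ D') :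
    (T.map e).map e.symm = T := by
  rw [Tri.map_map, Equiv.self_trans_symm]
  exact Tri.ext' rfl rfl

private theorem rooted_list {D D' : Type} (e : D ≃ D') (c : List D) :
    (c.map e).map e.symm = c := by
  rw [List.map_map, Equiv.symm_comp_self, List.map_id]

private theorem map_htp {D D' : Type} (T : Tri D) (e : D ≃ D') (c : List D) (h : T.NullHtp c) :
    (T.map e).NullHtp (c.map e) := by
  unfold Tri.NullHtp at h ⊢
  have key : ∀ x y : List D, Relation.EqvGen
      (fun x y => T.Closed x ∧ T.Closed y ∧ T.Step x y) x y →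
      Relation.EqvGen (fun x y => (T.map e).Closed x ∧ (T.map e).Closed y ∧ (T.map e).Step x y)
        (x.map e) (y.map e) := by
    intro x y h1
    induction h1 with
    | rel x y h2 =>
      refine Relation.EqvGen.rel _ _ ⟨(T.map_walk e x).2 h2.1, (T.map_walk e y).2 h2.2.1, ?_⟩
      rcases h2.2.2 with ⟨u, v, d⟩ | ⟨u, v, d⟩
      · have h3 := Tri.Step.spur (T := T.map e) (u.map e) (v.map e) (e d)
        rw [Tri.map_a] at h3
        simpa using h3
      · have h3 := Tri.Step.face (T := T.map e) (u.map e) (v.map e) (e d)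
        rw [Tri.map_f, Tri.map_f] at h3
        simpa using h3
    | refl x => exact Relation.EqvGen.refl _
    | symm x y _ ih => exact Relation.EqvGen.symm _ _ ih
    | trans x y z _ _ ih1 ih2 => exact Relation.EqvGen.trans _ _ _ ih1 ih2
  exact key c [] h

private theorem rooted_ssc {D D' : Type} (T : Tri D) (e : D ≃ D') (L : ℝ) (h : T.HasSSC L) :
    (T.map e).HasSSC L := by
  obtain ⟨c, h1, h2, h3, h4, h5, h6⟩ := h
  refine ⟨c.map e, ?_, (T.map_walk e c).2 h2, (T.map_simple e c).2 h3, (T.map_nullHom e c).2 h4,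
    fun h7 => h5 ?_, by rw [List.length_map]; exact h6⟩
  · intro h7
    exact h1 (List.map_eq_nil_iff.1 h7)
  · have h8 := map_htp (T.map e) e.symm _ h7
    rwa [rooted_symm, rooted_list] at h8

theorem Tri.map_hasSSC {D D' : Type} (T : Tri D) (e : D ≃ D') (L : ℝ) :
    (T.map e).HasSSC L ↔ T.HasSSC L := by
  constructor
  · intro h
    have h1 := rooted_ssc (T.map e) e.symm L h
    rwa [rooted_symm] at h1
  · exact rooted_ssc T e L

/-- The rooted triangulation has a simple separating non-contractible cycle of length at most `L`. -/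
def RTri.HasSSC {n g : ℕ} (L : ℝ) (q : RTri n g) : Prop :=
  Quotient.lift (s := rootSetoid n g) (fun x : Pairs n g => x.1.1.HasSSC L)
    (by
      rintro x y ⟨π, h, -⟩
      simp only [h]
      exact propext (Tri.map_hasSSC _ _ _).symm) q

theorem Tri.free {D : Type} (T : Tri D) (hT : T.Conn) {π : Equiv.Perm D} (h : T.map π = T) {r : D}
    (hr : π r = r) : π = 1 := by
  have h1 : {d | π d = d} = Set.univ := by
    refine hT _ ⟨r, hr⟩ ?_
    intro d hd
    have hd' : π d = d := hd
    constructor
    · have h2 := T.map_a π d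
      rw [h, hd'] at h2
      exact h2.symm
    · have h2 := T.map_f π d
      rw [h, hd'] at h2
      exact h2.symm
  ext d
  have h2 : d ∈ {d | π d = d} := by
    rw [h1]
    exact Set.mem_univ _
  exact h2

/-- the action of the permutations -/
private def pact {n g : ℕ} (π : Equiv.Perm (Fin (6 * n))) (x : Pairs n g) : Pairs n g :=
  ⟨(x.1.1.map π, π x.1.2), (x.1.1.map_conn π).2 x.2.1, (x.1.1.map_genus π n g).2 x.2.2⟩

private theorem pact_rel {n g : ℕ} {x y : Pairs n g} (h : (rootSetoid n g).r x y) :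
    ∃ π, y = pact π x := by
  obtain ⟨π, h1, h2⟩ := h
  exact ⟨π, Subtype.ext (Prod.ext h1 h2)⟩

private theorem rel_pact {n g : ℕ} (π : Equiv.Perm (Fin (6 * n))) (x : Pairs n g) :
    (rootSetoid n g).r x (pact π x) := ⟨π, rfl, rfl⟩

private theorem pact_inj {n g : ℕ} {π π' : Equiv.Perm (Fin (6 * n))} {x : Pairs n g}
    (h : pact π x = pact π' x) : π = π' := by
  have h1 : x.1.1.map π = x.1.1.map π' := congrArg (fun y : Pairs n g => y.1.1) h
  have h2 : π x.1.2 = π' x.1.2 := congrArg (fun y : Pairs n g => y.1.2) h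
  have h3 : x.1.1.map (π.trans π'.symm) = x.1.1 := by
    rw [← Tri.map_map, h1, rooted_symm]
  have h4 : (π.trans π'.symm) x.1.2 = x.1.2 := by
    rw [Equiv.trans_apply, h2, Equiv.symm_apply_apply]
  have h5 := Tri.free x.1.1 x.2.1 h3 h4
  ext d
  have h6 : (π.trans π'.symm) d = d := by
    rw [h5]
    rfl
  rw [Equiv.trans_apply, Equiv.symm_apply_eq] at h6
  rw [h6]

private theorem card_cls {n g : ℕ} (P : RTri n g → Prop) :
    Nat.card {q : RTri n g // P q} * (6 * n).factorial =
      Nat.card {x : Pairs n g // P (Quotient.mk (rootSetoid n g) x)} := by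
  have hout : ∀ q : RTri n g, Quotient.mk (rootSetoid n g) q.out = q := fun q => q.out_eq
  have hact : ∀ (π : Equiv.Perm (Fin (6 * n))) (x : Pairs n g),
      Quotient.mk (rootSetoid n g) (pact π x) = Quotient.mk (rootSetoid n g) x := fun π x =>
    Quotient.sound ((rootSetoid n g).iseqv.symm (rel_pact π x))
  let Ψ : {q : RTri n g // P q} × Equiv.Perm (Fin (6 * n)) →
      {x : Pairs n g // P (Quotient.mk (rootSetoid n g) x)} := fun y =>
    ⟨pact y.2 y.1.1.out, by rw [hact, hout]; exact y.1.2⟩
  have hΨ : Function.Bijective Ψ := by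
    constructor
    · rintro ⟨⟨q, hq⟩, π⟩ ⟨⟨q', hq'⟩, π'⟩ h
      have h1 : pact π q.out = pact π' q'.out := congrArg Subtype.val h
      have h2 : q = q' := by
        rw [← hout q, ← hout q', ← hact π q.out, ← hact π' q'.out, h1]
      subst h2
      have h3 := pact_inj h1
      subst h3
      rfl
    · rintro ⟨x, hx⟩
      have h1 : (rootSetoid n g).r (Quotient.mk (rootSetoid n g) x : RTri n g).out x :=
        Quotient.exact (hout _)
      obtain ⟨π, hπ⟩ := pact_rel h1
      exact ⟨(⟨Quotient.mk (rootSetoid n g) x, hx⟩, π), Subtype.ext hπ.symm⟩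
  rw [← Nat.card_congr (Equiv.ofBijective Ψ hΨ), Nat.card_prod, Nat.card_eq_fintype_card
    (α := Equiv.Perm (Fin (6 * n))), Fintype.card_perm, Fintype.card_fin]

private theorem card_pairs {n g : ℕ} (Q : Tri (Fin (6 * n)) → Prop) :
    Nat.card {x : Pairs n g // Q x.1.1} = {T | T ∈ Trn n g ∧ Q T}.ncard * (6 * n) := by
  have e : {x : Pairs n g // Q x.1.1} ≃ {T | T ∈ Trn n g ∧ Q T} × Fin (6 * n) :=
    { toFun := fun x => (⟨x.1.1.1, x.1.2, x.2⟩, x.1.1.2)
      invFun := fun y => ⟨⟨(y.1.1, y.2), y.1.2.1⟩, y.1.2.2⟩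
      left_inv := fun x => rfl
      right_inv := fun y => rfl }
  rw [Nat.card_congr e, Nat.card_prod, Nat.card_eq_fintype_card (α := Fin (6 * n)),
    Fintype.card_fin]
  rfl

theorem ratio_eq {n g : ℕ} (hn : 1 ≤ n) (L : ℝ) :
    (Nat.card {q : RTri n g // q.HasSSC L} : ℝ) / Nat.card (RTri n g) =
      ({T | T ∈ Trn n g ∧ T.HasSSC L}.ncard : ℝ) / (Trn n g).ncard := by
  have h1 : Nat.card {q : RTri n g // q.HasSSC L} * (6 * n).factorial =
      {T | T ∈ Trn n g ∧ T.HasSSC L}.ncard * (6 * n) := by
    rw [card_cls, ← card_pairs]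
    rfl
  have h2 : Nat.card (RTri n g) * (6 * n).factorial = (Trn n g).ncard * (6 * n) := by
    have h3 := card_cls (n := n) (g := g) (fun _ => True)
    have h4 := card_pairs (n := n) (g := g) (fun _ => True)
    rw [Nat.card_congr (Equiv.subtypeUnivEquiv (fun _ : RTri n g => trivial))] at h3
    rw [h3]
    refine h4.trans ?_
    simp only [and_true]
    rfl
  have h1' : (Nat.card {q : RTri n g // q.HasSSC L} : ℝ) * ((6 * n).factorial : ℝ) =
      ({T | T ∈ Trn n g ∧ T.HasSSC L}.ncard : ℝ) * (6 * n : ℝ) := by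
    exact_mod_cast h1
  have h2' : (Nat.card (RTri n g) : ℝ) * ((6 * n).factorial : ℝ) =
      ((Trn n g).ncard : ℝ) * (6 * n : ℝ) := by
    exact_mod_cast h2
  have k1 : ((6 * n).factorial : ℝ) ≠ 0 := by exact_mod_cast Nat.factorial_ne_zero _
  have k2 : (6 * n : ℝ) ≠ 0 := by
    have : (1 : ℝ) ≤ n := by exact_mod_cast hn
    positivity
  rw [← mul_div_mul_right _ _ k1, h1', h2', mul_div_mul_right _ _ k2]

end SST
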