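import Pool.Agent.SST.E.Inter
import Pool.Agent.SST.S.SubLoop

/-!
# SST-E-Pos: positivity of nu and the ratio bounds
* `nu_one`: `Theta` (on `Fin 6 = Fin (6 * 1)`) is connected (`decide`-like: a non-empty set closed
  under `a` and `f` contains a whole triangle and then, through `a 1 = 4`, the other one) and has
  3 vertices (`card_V_Theta`): `Trn 1 0` is not empty.
* `nu_pos`: induction on `g` for all `n`.  `g = 0`: from `nu_one` by `subdiv_nu` (`nu n 0 ≤ 2 nu (n+1) 0`).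
  Step: `HypTwo` at `(n, g)`: `2 (g+1) ≤ n + 1` gives `n + 3 - 2g ≥ 4`, the binomial coefficient is
  at least 1 and `nu (n+1) g > 0` by induction (`2 g ≤ n + 2`).
* `ratios`: `η := (1 - 2θ)/2`.  For large `n`: `g n ≥ 1`, `2 g n ≤ (1 - η) n` (as `2θ + η = 1 - η`), so for
  `n' ≥ n`: `v := n' + 3 - 2 g n ≥ η n'` and `v ≥ 4`.  `v.choose 2 = v (v-1)/2 ≥ v²/4 ≥ η² n'²/4`,
  `6 n' (3 n' + 2) ≤ 30 n'²`: `nu (n'+1) g ≤ 120/η² nu n' g`.  For `HypTwo` with `g n - 1`: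
  `v := n + 3 - 2 (g n - 1) ≥ η n`, `v ≥ 8`: `v.choose 4 ≥ (v/2)^4/24 ≥ η^4 n^4/384`:
  `n² nu (n+1) (g n - 1) ≤ 30 * 384/η^4 nu n (g n)`.
-/

namespace SST

open Filter Topology

private theorem theta_conn : Tri.Theta.Conn := by
  intro S hS hcl
  have hf : ∀ i : Fin 6, i ∈ S → Tri.Theta.f i ∈ S := fun i hi => (hcl i hi).2
  have ha : ∀ i : Fin 6, i ∈ S → Tri.Theta.a i ∈ S := fun i hi => (hcl i hi).1
  have h12 : (1 : Fin 6) ∈ S → (4 : Fin 6) ∈ S := ha 1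
  have h21 : (4 : Fin 6) ∈ S → (1 : Fin 6) ∈ S := ha 4
  have e0 : (0 : Fin 6) ∈ S → (1 : Fin 6) ∈ S := hf 0
  have e1 : (1 : Fin 6) ∈ S → (2 : Fin 6) ∈ S := hf 1
  have e2 : (2 : Fin 6) ∈ S → (0 : Fin 6) ∈ S := hf 2
  have e3 : (3 : Fin 6) ∈ S → (4 : Fin 6) ∈ S := hf 3
  have e4 : (4 : Fin 6) ∈ S → (5 : Fin 6) ∈ S := hf 4
  have e5 : (5 : Fin 6) ∈ S → (3 : Fin 6) ∈ S := hf 5
  obtain ⟨i, hi⟩ := hS
  have h6 : ∀ i : Fin 6, i = 0 ∨ i = 1 ∨ i = 2 ∨ i = 3 ∨ i = 4 ∨ i = 5 := by decide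
  have h0 : (0 : Fin 6) ∈ S := by
    rcases h6 i with h | h | h | h | h | h
    · exact h ▸ hi
    · exact e2 (e1 (h ▸ hi))
    · exact e2 (h ▸ hi)
    · exact e2 (e1 (h21 (e3 (h ▸ hi))))
    · exact e2 (e1 (h21 (h ▸ hi)))
    · exact e2 (e1 (h21 (e3 (e5 (h ▸ hi)))))
  rw [Set.eq_univ_iff_forall]
  intro j
  rcases h6 j with h | h | h | h | h | h
  · exact h ▸ h0
  · exact h ▸ e0 h0
  · exact h ▸ e1 (e0 h0)
  · exact h ▸ e5 (e4 (h12 (e0 h0)))
  · exact h ▸ h12 (e0 h0)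
  · exact h ▸ e4 (h12 (e0 h0))

theorem nu_one : 0 < nu 1 0 := by
  have h : (Tri.Theta : Tri (Fin (6 * 1))) ∈ Trn 1 0 := by
    refine ⟨theta_conn, ?_⟩
    show Nat.card Tri.Theta.V + 2 * 0 = 1 + 2
    rw [Tri.card_V_Theta]
  have h2 : 0 < (Trn 1 0).ncard := (Set.ncard_pos (Set.toFinite _)).2 ⟨_, h⟩
  unfold nu
  positivity

private theorem nu_nonneg' (n g : ℕ) : 0 ≤ nu n g := by
  unfold nu
  positivity

private theorem nu_zero_pos {n : ℕ} (hn : 1 ≤ n) : 0 < nu n 0 := by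
  induction n, hn using Nat.le_induction with
  | base => exact nu_one
  | succ n hn ih =>
    have := subdiv_nu (g := 0) hn
    linarith

theorem nu_pos (h₂ : HypTwo) {n g : ℕ} (hn : 1 ≤ n) (hg : 2 * g ≤ n + 1) : 0 < nu n g := by
  induction g generalizing n with
  | zero => exact nu_zero_pos hn
  | succ g ih =>
    have h1 := h₂ (n := n) (g := g) hn
    have h2 : 0 < nu (n + 1) g := ih (by omega) (by omega)
    have h3 : 0 < (n + 3 - 2 * g).choose 4 := Nat.choose_pos (by omega)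
    have h4 : (0 : ℝ) < ((n + 3 - 2 * g).choose 4 : ℝ) := by exact_mod_cast h3
    have h5 := (mul_pos h4 h2).trans_le h1
    have h6 : (0 : ℝ) ≤ 6 * n * (3 * n + 2) := by positivity
    exact pos_of_mul_pos_right h5 h6

private theorem choose_lb (v k : ℕ) (x : ℝ) (hx : 0 ≤ x) (h : x + k ≤ v + 1) :
    x ^ k ≤ k.factorial * (v.choose k : ℝ) := by
  have hk : k ≤ v + 1 := by
    have : (k : ℝ) ≤ ((v + 1 : ℕ) : ℝ) := by
      push_cast
      linarith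
    exact_mod_cast this
  have h1 := Nat.pow_sub_le_descFactorial v k
  rw [Nat.descFactorial_eq_factorial_mul_choose] at h1
  have h2 : ((v + 1 - k : ℕ) : ℝ) ^ k ≤ k.factorial * (v.choose k : ℝ) := by exact_mod_cast h1
  refine le_trans (pow_le_pow_left₀ hx ?_ k) h2
  rw [Nat.cast_sub hk]
  push_cast
  linarith

theorem ratios (h₁ : HypOne) (h₂ : HypTwo) {θ : ℝ} (hθ : 0 < θ) (hθ' : θ < 1 / 2) :
    ∃ C : ℝ, 1 ≤ C ∧ ∀ g : ℕ → ℕ, Tendsto (fun n => (g n : ℝ) / n) atTop (𝓝 θ) →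
      ∀ᶠ n in atTop, 1 ≤ g n ∧ 0 < nu n (g n) ∧ (∀ n' ≥ n, nu (n' + 1) (g n) ≤ C * nu n' (g n)) ∧
        (n : ℝ) ^ 2 * nu (n + 1) (g n - 1) ≤ C * nu n (g n) := by
  obtain ⟨η, hη⟩ : ∃ η : ℝ, η = (1 - 2 * θ) / 2 := ⟨_, rfl⟩
  have hη0 : 0 < η := by rw [hη]; linarith
  have hη1 : η ≤ 1 := by rw [hη]; linarith
  have hη4 : 0 < η ^ 4 := by positivity
  have hη41 : η ^ 4 ≤ 1 := pow_le_one₀ hη0.le hη1
  have hη42 : η ^ 4 ≤ η ^ 2 := pow_le_pow_of_le_one hη0.le hη1 (by norm_num)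
  refine ⟨720 / η ^ 4, ?_, ?_⟩
  · rw [le_div_iff₀ hη4]
    linarith
  intro g hg
  have hθη : θ / 2 < θ := by linarith
  have hθη' : θ < θ + η / 2 := by linarith
  have e1 := hg.eventually (lt_mem_nhds hθη)
  have e2 := hg.eventually (gt_mem_nhds hθη')
  have e3 : ∀ᶠ n : ℕ in atTop, 2 / θ ≤ (n : ℝ) := tendsto_natCast_atTop_atTop.eventually_ge_atTop _
  filter_upwards [e1, e2, e3, eventually_ge_atTop 1] with n h1 h2 h3 hn
  have hn0 : (0 : ℝ) < n := by exact_mod_cast hn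
  rw [lt_div_iff₀ hn0] at h1
  rw [div_lt_iff₀ hn0] at h2
  rw [div_le_iff₀ hθ] at h3
  have hg1 : 1 ≤ g n := by
    have : (0 : ℝ) < g n := by nlinarith
    exact_mod_cast this
  have hg2 : 2 * (g n : ℝ) ≤ (1 - η) * n := by
    have : 1 - η = 2 * (θ + η / 2) := by rw [hη]; ring
    rw [this]
    nlinarith
  have hg3 : 2 * g n ≤ n := by
    have : ((2 * g n : ℕ) : ℝ) ≤ n := by
      push_cast
      nlinarith
    exact_mod_cast this
  have key : ∀ m : ℕ, 1 ≤ m → 6 * (m : ℝ) * (3 * m + 2) ≤ 30 * (m : ℝ) ^ 2 := by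
    intro m hm
    have : (1 : ℝ) ≤ m := by exact_mod_cast hm
    nlinarith
  refine ⟨hg1, nu_pos h₂ hn (by omega), ?_, ?_⟩
  · intro m hm
    have hm1 : 1 ≤ m := hn.trans hm
    have hm0 : (0 : ℝ) < m := by exact_mod_cast hm1
    have hnm : (n : ℝ) ≤ m := by exact_mod_cast hm
    have a1 := h₁ (n := m) (g := g n) hm1
    have a2 : (η * m) ^ 2 ≤ (Nat.factorial 2 : ℕ) * ((m + 3 - 2 * g n).choose 2 : ℝ) := by
      refine choose_lb _ 2 _ (by positivity) ?_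
      rw [Nat.cast_sub (by omega)]
      push_cast
      nlinarith
    have a3 : ((Nat.factorial 2 : ℕ) : ℝ) = 2 := by norm_num [Nat.factorial]
    rw [a3] at a2
    have a4 := nu_nonneg' (m + 1) (g n)
    have a5 := nu_nonneg' m (g n)
    have a6 : (η * m) ^ 2 * nu (m + 1) (g n) ≤ 60 * (m : ℝ) ^ 2 * nu m (g n) := by
      calc (η * m) ^ 2 * nu (m + 1) (g n)
          ≤ 2 * ((m + 3 - 2 * g n).choose 2 : ℝ) * nu (m + 1) (g n) :=
            mul_le_mul_of_nonneg_right a2 a4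
        _ ≤ 2 * (6 * m * (3 * m + 2) * nu m (g n)) := by linarith
        _ ≤ 2 * (30 * (m : ℝ) ^ 2 * nu m (g n)) := by
            have := mul_le_mul_of_nonneg_right (key m hm1) a5
            linarith
        _ = 60 * (m : ℝ) ^ 2 * nu m (g n) := by ring
    have a7 : η ^ 2 * nu (m + 1) (g n) ≤ 60 * nu m (g n) := by
      have : 0 < (m : ℝ) ^ 2 := by positivity
      refine le_of_mul_le_mul_left ?_ this
      calc (m : ℝ) ^ 2 * (η ^ 2 * nu (m + 1) (g n)) = (η * m) ^ 2 * nu (m + 1) (g n) := by ring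
        _ ≤ _ := a6
        _ = _ := by ring
    rw [div_mul_eq_mul_div, le_div_iff₀ hη4]
    calc nu (m + 1) (g n) * η ^ 4 ≤ nu (m + 1) (g n) * η ^ 2 :=
          mul_le_mul_of_nonneg_left hη42 a4
      _ ≤ 60 * nu m (g n) := by linarith
      _ ≤ 720 * nu m (g n) := by linarith
  · obtain ⟨g', hg'⟩ : ∃ g', g n = g' + 1 := ⟨g n - 1, by omega⟩
    rw [hg'] at hg2 hg3 ⊢
    rw [Nat.add_sub_cancel]
    have a1 := h₂ (n := n) (g := g') hn
    have a2 : (η * n) ^ 4 ≤ (Nat.factorial 4 : ℕ) * ((n + 3 - 2 * g').choose 4 : ℝ) := by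
      refine choose_lb _ 4 _ (by positivity) ?_
      rw [Nat.cast_sub (by omega)]
      push_cast at hg2 ⊢
      nlinarith
    have a3 : ((Nat.factorial 4 : ℕ) : ℝ) = 24 := by norm_num [Nat.factorial]
    rw [a3] at a2
    have a4 := nu_nonneg' (n + 1) g'
    have a5 := nu_nonneg' n (g' + 1)
    have a6 : (η * n) ^ 4 * nu (n + 1) g' ≤ 720 * (n : ℝ) ^ 2 * nu n (g' + 1) := by
      calc (η * n) ^ 4 * nu (n + 1) g'
          ≤ 24 * ((n + 3 - 2 * g').choose 4 : ℝ) * nu (n + 1) g' :=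
            mul_le_mul_of_nonneg_right a2 a4
        _ ≤ 24 * (6 * n * (3 * n + 2) * nu n (g' + 1)) := by linarith
        _ ≤ 24 * (30 * (n : ℝ) ^ 2 * nu n (g' + 1)) := by
            have := mul_le_mul_of_nonneg_right (key n hn) a5
            linarith
        _ = 720 * (n : ℝ) ^ 2 * nu n (g' + 1) := by ring
    rw [div_mul_eq_mul_div, le_div_iff₀ hη4]
    have : 0 < (n : ℝ) ^ 2 := by positivity
    refine le_of_mul_le_mul_left ?_ this
    calc (n : ℝ) ^ 2 * ((n : ℝ) ^ 2 * nu (n + 1) g' * η ^ 4) = (η * n) ^ 4 * nu (n + 1) g' := by ring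
      _ ≤ _ := a6
      _ = _ := by ring

end SST
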