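import Pool.Agent.SST.E.Whp
import Pool.Agent.SST.E.Rooted

/-!
# SST-E-Final: the theorem (conditional on the interface statements, discharged in the hand-in)
From `whp` and `ratio_eq`: the ratio is `1 - #{not HasSSC}/#Trn ∈ [1 - (2/n + n^(-1/4)), 1]`
(`{T ∈ Trn : HasSSC}` and `{T ∈ Trn : ¬ HasSSC}` partition the finite set `Trn`); squeeze.
-/

namespace SST

open Filter Topology

theorem final (h₁ : HypOne) (h₂ : HypTwo) (h₃ : HypTail) (h₄ : HypCont) {θ : ℝ} (hθ : 0 < θ)
    (hθ' : θ < 1 / 2) :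
    ∃ A : ℝ, ∀ g : ℕ → ℕ, Tendsto (fun n => (g n : ℝ) / n) atTop (𝓝 θ) →
      Tendsto (fun n : ℕ => (Nat.card {q : RTri n (g n) // q.HasSSC (A * Real.log n)} : ℝ) /
        Nat.card (RTri n (g n))) atTop (𝓝 1) := by
  obtain ⟨A, hA⟩ := whp h₁ h₂ h₃ h₄ hθ hθ'
  refine ⟨A, fun g hg => ?_⟩
  have hev := hA g hg
  have hlow : Tendsto (fun n : ℕ => 1 - (2 / (n : ℝ) + (n : ℝ) ^ (-(1 / 4) : ℝ))) atTop (𝓝 1) := by
    have t1 : Tendsto (fun n : ℕ => 2 / (n : ℝ)) atTop (𝓝 0) :=
      tendsto_const_div_atTop_nhds_zero_nat 2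
    have t2 : Tendsto (fun n : ℕ => (n : ℝ) ^ (-(1 / 4) : ℝ)) atTop (𝓝 0) :=
      (tendsto_rpow_neg_atTop (y := 1 / 4) (by norm_num)).comp tendsto_natCast_atTop_atTop
    have t3 := (tendsto_const_nhds (x := (1 : ℝ)) (f := (atTop : Filter ℕ))).sub (t1.add t2)
    rw [add_zero, sub_zero] at t3
    exact t3
  refine tendsto_of_tendsto_of_tendsto_of_le_of_le' hlow tendsto_const_nhds ?_ ?_
  · filter_upwards [hev, eventually_ge_atTop 1] with n hn hn1
    obtain ⟨hpos, hbound⟩ := hn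
    rw [ratio_eq hn1]
    have hpos' : (0 : ℝ) < (Trn n (g n)).ncard := by exact_mod_cast hpos
    have hsplit : (Trn n (g n)).ncard =
        {T | T ∈ Trn n (g n) ∧ T.HasSSC (A * Real.log n)}.ncard +
          {T | T ∈ Trn n (g n) ∧ ¬ T.HasSSC (A * Real.log n)}.ncard := by
      rw [← Set.ncard_union_eq]
      · congr 1
        ext T
        constructor
        · intro hT
          by_cases h : T.HasSSC (A * Real.log n)
          · exact Or.inl ⟨hT, h⟩
          · exact Or.inr ⟨hT, h⟩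
        · rintro (h | h)
          · exact h.1
          · exact h.1
      · rw [Set.disjoint_left]
        intro T h h'
        exact h'.2 h.2
    have hsplit' : ((Trn n (g n)).ncard : ℝ) =
        ({T | T ∈ Trn n (g n) ∧ T.HasSSC (A * Real.log n)}.ncard : ℝ) +
          ({T | T ∈ Trn n (g n) ∧ ¬ T.HasSSC (A * Real.log n)}.ncard : ℝ) := by
      exact_mod_cast hsplit
    rw [le_div_iff₀ hpos']
    linarith
  · filter_upwards [hev, eventually_ge_atTop 1] with n hn hn1
    obtain ⟨hpos, -⟩ := hn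
    rw [ratio_eq hn1]
    have hpos' : (0 : ℝ) < (Trn n (g n)).ncard := by exact_mod_cast hpos
    rw [div_le_one hpos']
    have h5 : {T | T ∈ Trn n (g n) ∧ T.HasSSC (A * Real.log n)}.ncard ≤ (Trn n (g n)).ncard :=
      Set.ncard_le_ncard (fun T hT => hT.1) (Set.toFinite _)
    exact_mod_cast h5

end SST
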