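import Pool.Agent.SST.S.SC

/-!
# SST-E: the interface statements of blocks A and S as propositions.  Definitions only.  DO NOT CHANGE.
-/

namespace SST

open Classical

/-- (7.1) -/
def HypOne : Prop := ∀ {n g : ℕ}, 1 ≤ n →
  ((n + 3 - 2 * g).choose 2 : ℝ) * nu (n + 1) g ≤ 6 * n * (3 * n + 2) * nu n g

/-- (7.2) -/
def HypTwo : Prop := ∀ {n g : ℕ}, 1 ≤ n →
  ((n + 3 - 2 * g).choose 4 : ℝ) * nu (n + 1) g ≤ 6 * n * (3 * n + 2) * nu n (g + 1)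

/-- (8.1) -/
def HypTail : Prop := ∀ C : ℝ, 1 ≤ C → ∃ m0 : ℕ, 1 ≤ m0 ∧ ∀ n g D : ℕ, 1 ≤ n →
  (∀ n' ≥ n, nu (n' + 1) g ≤ C * nu n' g) →
  ({x : Tri (Fin (6 * n)) × Fin (6 * n) | x.1 ∈ Trn n g ∧ D ≤ x.1.deg x.2}.ncard : ℝ) /
    (6 * n).factorial ≤ 6 * n * nu n g * (1 / 2 : ℝ) ^ ((D - 1) / m0)

/-- (8.2) -/
def HypCont : Prop := ∀ C : ℝ, 1 ≤ C → ∃ (C1 : ℝ) (m1 : ℕ), 1 ≤ C1 ∧ 1 ≤ m1 ∧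
  ∀ n g N B : ℕ, 1 ≤ n → (∀ n' ≥ n, nu (n' + 1) g ≤ C * nu n' g) →
  ({T : Tri (Fin (6 * n)) | T ∈ Trn n g ∧ ∃ K : Finset (Fin (6 * n)), T.AC K ∧ K.Nonempty ∧
    T.Unicell K ∧ K.card ≤ N ∧ B < (T.DU (T.VK K)).card}.ncard : ℝ) / (6 * n).factorial ≤
    6 * n * nu n g * C1 ^ (N + 1) * (1 / 2 : ℝ) ^ (B / m1)

end SST
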