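import Pool.Agent.SST.S.Decomp
import Pool.Agent.SST.D.Wt

/-!
# SST-E-NearC: number of darts near the bad vertices
A vertex with `Near T X r v` is in the ball of radius `r` (walks of length `≤ r`) around some
`x ∈ X`: at most `card X * (Δ+1)^r` vertices (`ball_card`, union over the finite set `X`).  Each vertex is
the tail of at most `Δ` darts (`deg`), and the head of at most `Δ` darts (`d ↦ a d`).
-/

namespace SST
namespace Tri

theorem near_card {D : Type} [Finite D] (T : Tri D) {Δ : ℕ} (hΔ : ∀ d, T.deg d ≤ Δ) (X : Set T.V)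
    (r : ℕ) : {d : D | T.Near X r (T.tl d) ∨ T.Near X r (T.hd d)}.ncard ≤
      2 * X.ncard * (Δ + 1) ^ (r + 1) := by
  classical
  have hfV : Finite T.V := Quotient.finite _
  -- the vertices near `X`
  have hNfin : {v : T.V | T.Near X r v}.Finite := Set.toFinite _
  set N : Finset T.V := hNfin.toFinset with hN
  have hNc : N.card ≤ X.ncard * (Δ + 1) ^ r := by
    have hs : N ⊆ (Set.toFinite X).toFinset.biUnion (fun x =>
        (Set.toFinite {v : T.V | ∃ l : List D, T.IsWalk x l v ∧ l.length ≤ r}).toFinset) := by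
      intro v hv
      rw [hN, Set.Finite.mem_toFinset] at hv
      obtain ⟨x, hx, l, hl, hlen⟩ := hv
      rw [Finset.mem_biUnion]
      refine ⟨x, ?_, ?_⟩
      · rw [Set.Finite.mem_toFinset]
        exact hx
      · rw [Set.Finite.mem_toFinset]
        exact ⟨l, hl, hlen.le⟩
    refine (Finset.card_le_card hs).trans ?_
    rw [Set.ncard_eq_toFinset_card X (Set.toFinite X)]
    refine Finset.card_biUnion_le_card_mul _ _ _ (fun x _ => ?_)
    rw [← Set.ncard_eq_toFinset_card]
    exact ball_card T hΔ x r
  -- the darts with tail near `X`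
  have hA : {d : D | T.Near X r (T.tl d)}.ncard ≤ X.ncard * (Δ + 1) ^ (r + 1) := by
    have hs : {d : D | T.Near X r (T.tl d)} ⊆
        ((N.biUnion (fun v => (Set.toFinite {e : D | T.tl e = v}).toFinset) : Finset D) : Set D) := by
      intro d hd
      rw [Finset.mem_coe, Finset.mem_biUnion]
      refine ⟨T.tl d, ?_, ?_⟩
      · rw [hN, Set.Finite.mem_toFinset]
        exact hd
      · rw [Set.Finite.mem_toFinset]
        exact rfl
    have h1 := Set.ncard_le_ncard hs (Finset.finite_toSet _)
    rw [Set.ncard_coe_finset] at h1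
    refine h1.trans ?_
    have h2 : (N.biUnion (fun v => (Set.toFinite {e : D | T.tl e = v}).toFinset)).card ≤
        N.card * (Δ + 1) := by
      refine Finset.card_biUnion_le_card_mul _ _ _ (fun v _ => ?_)
      rw [← Set.ncard_eq_toFinset_card]
      obtain ⟨d, hd⟩ : ∃ d : D, T.tl d = v := Quotient.exists_rep v
      have h3 := hΔ d
      unfold deg at h3
      rw [hd] at h3
      omega
    refine h2.trans ?_
    rw [pow_succ, ← mul_assoc]
    exact Nat.mul_le_mul_right _ hNc
  -- the darts with head near `X`
  have hB : {d : D | T.Near X r (T.hd d)}.ncard ≤ X.ncard * (Δ + 1) ^ (r + 1) := by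
    have hs : {d : D | T.Near X r (T.hd d)} ⊆ T.a '' {d : D | T.Near X r (T.tl d)} := by
      intro d hd
      refine ⟨T.a d, ?_, T.aa d⟩
      exact hd
    exact ((Set.ncard_le_ncard hs (Set.toFinite _)).trans
      (Set.ncard_image_le (Set.toFinite _))).trans hA
  have hU : {d : D | T.Near X r (T.tl d) ∨ T.Near X r (T.hd d)} =
      {d : D | T.Near X r (T.tl d)} ∪ {d : D | T.Near X r (T.hd d)} := rfl
  rw [hU]
  refine (Set.ncard_union_le _ _).trans ?_
  have := add_le_add hA hB
  refine this.trans (le_of_eq ?_)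
  ring

end Tri
end SST
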