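import Mathlib

/-!
# SST-E-Param: choice of the parameters (pure analysis)
Put `ℓ n := ⌈Real.log n⌉₊ + 1` (natural), `ρ n := a ℓ n`, `r n := ⌈11 log (4 ρ n + 5)⌉₊`,
`Δ n := b ℓ n`, `B n := c ℓ n` with natural constants:
* `a` with `a log (1 + ε) ≥ 3`: `(1+ε)^(ρ n) ≥ e^(3 ℓ n) ≥ e³ n³ > 6n` for large `n`;
* `(11/10)^(r n) ≥ 4 ρ n + 5` as `11 log(11/10) ≥ 1` (`log(11/10) ≥ 1/11`);
* `b := m₀ b'`, `Δ n / m₀ = b' ℓ n`, `(1/2)^(b' ℓ n) ≤ n^(-b' log 2)`, so `6 n (1/2)^(Δ n / m₀) ≤ 1/n` if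
  `b' log 2 ≥ 3` and `n` is large;
* `c := m₁ c'`, `(1/2)^(c' ℓ n) C₁^(8 a ℓ n + 11) ≤ C₁^11 e^(ℓ n (8 a log C₁ - c' log 2))`, `c'` with
  `c' log 2 ≥ 8 a log C₁ + 3`;
* `B n ≤ A log n` for large `n` (`ℓ n ≤ 3 log n` for `n ≥ 3`);
* `2 √n (Δ n + 1)^(r n + 1) ≤ (θ/2) n`: `log` of the left side over `√n` is
  `O(r n log (Δ n + 1)) = O((log log n)²) = o(log n)`; more precisely `(Δ n + 1)^(r n + 1) ≤ n^(1/4)`
  for large `n` (`log (Δ n + 1) ≤ K log log n`, `r n + 1 ≤ K log log n` and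
  `(log log n)² / log n → 0`), and `2 n^(3/4) ≤ (θ/2) n`;
* `10^8 (Δ n + 1)^14 C ≤ n^(1/4)`: a power of `log n` against a power of `n`.
Filter arguments: `isLittleO_log_rpow_atTop`, `Real.tendsto_log_atTop`, `Filter.Tendsto.eventually`
etc.  (It is convenient to substitute `x = log n`, `y = log x`.)
-/

namespace SST

open Filter Topology

private theorem par_exp {n : ℕ} (hn : 1 ≤ n) {L : ℝ} (hL : Real.log n + 1 ≤ L) :
    8 * (n : ℝ) ^ 3 ≤ Real.exp (3 * L) := by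
  have hn' : (0 : ℝ) < n := by exact_mod_cast hn
  have h1 : Real.exp (3 * (Real.log n + 1)) = (n * Real.exp 1) ^ 3 := by
    rw [show (3 : ℝ) * (Real.log n + 1) = ((3 : ℕ) : ℝ) * (Real.log n + 1) by norm_num,
      Real.exp_nat_mul, Real.exp_add, Real.exp_log hn']
  have h2 : (2 : ℝ) ≤ Real.exp 1 := by
    have := Real.add_one_le_exp (1 : ℝ)
    linarith
  calc 8 * (n : ℝ) ^ 3 = (n * 2) ^ 3 := by ring
    _ ≤ (n * Real.exp 1) ^ 3 := by gcongr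
    _ = Real.exp (3 * (Real.log n + 1)) := h1.symm
    _ ≤ Real.exp (3 * L) := Real.exp_le_exp.2 (by linarith)

private theorem par_neg {n : ℕ} (hn : 1 ≤ n) {L : ℝ} (hL : Real.log n + 1 ≤ L) :
    6 * (n : ℝ) * Real.exp (-(3 * L)) ≤ 1 / n := by
  have hn' : (1 : ℝ) ≤ n := by exact_mod_cast hn
  have h1 := par_exp hn hL
  have h2 : Real.exp (-(3 * L)) ≤ 1 / (8 * (n : ℝ) ^ 3) := by
    rw [Real.exp_neg, ← one_div]
    exact one_div_le_one_div_of_le (by positivity) h1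
  calc 6 * (n : ℝ) * Real.exp (-(3 * L)) ≤ 6 * n * (1 / (8 * (n : ℝ) ^ 3)) := by gcongr
    _ = 3 / (4 * (n : ℝ) ^ 2) := by field_simp; norm_num
    _ ≤ 1 / n := by
      rw [div_le_div_iff₀ (by positivity) (by positivity)]
      nlinarith

private theorem par_half (k : ℕ) : (1 / 2 : ℝ) ^ k = Real.exp (-(k * Real.log 2)) := by
  rw [show -((k : ℝ) * Real.log 2) = (k : ℝ) * (-Real.log 2) by ring, Real.exp_nat_mul,
    Real.exp_neg, Real.exp_log (by norm_num)]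
  norm_num

private theorem par_pow {C : ℝ} (hC : 0 < C) (k : ℕ) : C ^ k = Real.exp (k * Real.log C) := by
  rw [Real.exp_nat_mul, Real.exp_log hC]

private theorem par_log2 : (3 : ℝ) ≤ 5 * Real.log 2 := by
  have := Real.log_two_gt_d9
  linarith

private theorem par_eleven (x : ℝ) (hx : 0 ≤ x) :
    (4 * x + 5) * (10 / 11 : ℝ) ^ ⌈11 * Real.log (4 * x + 5)⌉₊ ≤ 1 := by
  have h0 : 0 < 4 * x + 5 := by linarith
  set r := ⌈11 * Real.log (4 * x + 5)⌉₊ with hr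
  have h1 : 11 * Real.log (4 * x + 5) ≤ r := Nat.le_ceil _
  have h2 : Real.log (10 / 11 : ℝ) ≤ -(1 / 11) := by
    have := Real.log_le_sub_one_of_pos (show (0 : ℝ) < 10 / 11 by norm_num)
    linarith
  rw [par_pow (by norm_num) r]
  have h3 : (r : ℝ) * Real.log (10 / 11) ≤ -Real.log (4 * x + 5) := by
    have h4 : (r : ℝ) * Real.log (10 / 11) ≤ r * (-(1 / 11)) :=
      mul_le_mul_of_nonneg_left h2 (Nat.cast_nonneg _)
    linarith
  calc (4 * x + 5) * Real.exp (r * Real.log (10 / 11))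
      ≤ (4 * x + 5) * Real.exp (-Real.log (4 * x + 5)) :=
        mul_le_mul_of_nonneg_left (Real.exp_le_exp.2 h3) h0.le
    _ = 1 := by
      rw [Real.exp_neg, Real.exp_log h0, mul_inv_cancel₀ h0.ne']

private theorem par_ev {K : ℝ} (hK : 0 < K) :
    ∀ᶠ n : ℕ in atTop, Real.log (K * Real.log n) ^ 2 ≤ Real.log n / 52 := by
  have h1 := (Real.isLittleO_pow_log_id_atTop (n := 2)).bound (c := 1 / (52 * K)) (by positivity)
  have h2 : Tendsto (fun n : ℕ => K * Real.log n) atTop atTop :=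
    (Real.tendsto_log_atTop.comp tendsto_natCast_atTop_atTop).const_mul_atTop hK
  have h3 := h2.eventually h1
  have h4 := h2.eventually (eventually_ge_atTop (0 : ℝ))
  filter_upwards [h3, h4] with n h5 h6
  rw [Real.norm_of_nonneg (by positivity), id, Real.norm_of_nonneg h6] at h5
  refine h5.trans (le_of_eq ?_)
  field_simp

private theorem par_ev2 {c : ℝ} (hc : 0 < c) :
    ∀ᶠ n : ℕ in atTop, Real.log n ^ 14 ≤ c * (n : ℝ) ^ (1 / 4 : ℝ) := by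
  have h1 := (isLittleO_log_rpow_rpow_atTop (s := 1 / 4) (14 : ℝ) (by norm_num)).bound hc
  have h2 : Tendsto (fun n : ℕ => (n : ℝ)) atTop atTop := tendsto_natCast_atTop_atTop
  have h3 := h2.eventually h1
  have h4 := h2.eventually (eventually_ge_atTop (1 : ℝ))
  filter_upwards [h3, h4] with n h5 h6
  have h7 : 0 ≤ Real.log n := Real.log_nonneg h6
  rw [Real.norm_of_nonneg (by positivity), Real.norm_of_nonneg (by positivity)] at h5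
  rw [show (14 : ℝ) = ((14 : ℕ) : ℝ) by norm_num, Real.rpow_natCast] at h5
  exact h5

private theorem par_q {n : ℕ} (hn : 1 ≤ n) :
    ((n : ℝ) ^ (1 / 4 : ℝ)) ^ 4 = n ∧ Real.sqrt n = ((n : ℝ) ^ (1 / 4 : ℝ)) ^ 2 ∧
      0 < (n : ℝ) ^ (1 / 4 : ℝ) ∧ Real.exp (Real.log n / 4) = (n : ℝ) ^ (1 / 4 : ℝ) := by
  have hn' : (0 : ℝ) < n := by exact_mod_cast hn
  have hq : 0 < (n : ℝ) ^ (1 / 4 : ℝ) := by positivity
  have h1 : ((n : ℝ) ^ (1 / 4 : ℝ)) ^ 4 = n := by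
    rw [← Real.rpow_natCast, ← Real.rpow_mul hn'.le]
    norm_num
  refine ⟨h1, ?_, hq, ?_⟩
  · have h2 : (n : ℝ) = (((n : ℝ) ^ (1 / 4 : ℝ)) ^ 2) ^ 2 := by
      rw [← pow_mul]
      exact h1.symm
    conv_lhs => rw [h2]
    rw [Real.sqrt_sq (by positivity)]
  · rw [Real.rpow_def_of_pos hn']
    congr 1
    ring

private theorem par_six {n : ℕ} (hn : 1 ≤ n) {θ K Δ ρ : ℝ} (hθ : 0 < θ) (hK : 5 ≤ K)
    (hx : 1 ≤ Real.log n) (hΔ0 : 0 ≤ Δ) (hΔ : Δ + 1 ≤ K * Real.log n) (hρ0 : 0 ≤ ρ)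
    (hρ : 4 * ρ + 5 ≤ K * Real.log n)
    (h2 : Real.log (K * Real.log n) ^ 2 ≤ Real.log n / 52)
    (h4 : 4 / θ ≤ (n : ℝ) ^ (1 / 4 : ℝ)) :
    2 * Real.sqrt n * (Δ + 1) ^ (⌈11 * Real.log (4 * ρ + 5)⌉₊ + 1) ≤ θ / 2 * n := by
  obtain ⟨q1, q2, q3, q4⟩ := par_q hn
  set q := (n : ℝ) ^ (1 / 4 : ℝ) with hq
  set r := ⌈11 * Real.log (4 * ρ + 5)⌉₊ with hr
  set L := Real.log (K * Real.log n) with hL
  have hKx : 5 ≤ K * Real.log n := by nlinarith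
  have hL1 : 1 ≤ L := by
    rw [hL, Real.le_log_iff_exp_le (by linarith)]
    have := Real.exp_one_lt_d9
    linarith
  have hr1 : (r : ℝ) ≤ 11 * Real.log (4 * ρ + 5) + 1 := by
    have h : 0 ≤ 11 * Real.log (4 * ρ + 5) := by
      have := Real.log_nonneg (show (1 : ℝ) ≤ 4 * ρ + 5 by linarith)
      linarith
    exact (Nat.ceil_lt_add_one h).le
  have hr2 : Real.log (4 * ρ + 5) ≤ L := Real.log_le_log (by linarith) hρ
  have hd : Real.log (Δ + 1) ≤ L := Real.log_le_log (by linarith) hΔ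
  have hd0 : 0 ≤ Real.log (Δ + 1) := Real.log_nonneg (by linarith)
  have h5 : ((r + 1 : ℕ) : ℝ) * Real.log (Δ + 1) ≤ Real.log n / 4 := by
    have h6 : ((r + 1 : ℕ) : ℝ) ≤ 13 * L := by
      push_cast
      linarith
    calc ((r + 1 : ℕ) : ℝ) * Real.log (Δ + 1) ≤ (13 * L) * L := by
          apply mul_le_mul h6 hd hd0 (by linarith)
      _ = 13 * L ^ 2 := by ring
      _ ≤ 13 * (Real.log n / 52) := by linarith
      _ = Real.log n / 4 := by ring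
  have h7 : (Δ + 1) ^ (r + 1) ≤ q := by
    rw [par_pow (by linarith) (r + 1), ← q4]
    exact Real.exp_le_exp.2 h5
  rw [q2]
  have h8 : 4 ≤ q * θ := by
    rwa [div_le_iff₀ hθ] at h4
  calc 2 * q ^ 2 * (Δ + 1) ^ (r + 1) ≤ 2 * q ^ 2 * q := by gcongr
    _ = (4 * q ^ 3) / 2 := by ring
    _ ≤ (q * θ * q ^ 3) / 2 := by
      have : 0 < q ^ 3 := by positivity
      nlinarith
    _ = θ / 2 * q ^ 4 := by ring
    _ = θ / 2 * n := by rw [q1]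

theorem params {θ ε C C₁ : ℝ} (hθ : 0 < θ) (hε : 0 < ε) (hC : 1 ≤ C) (hC₁ : 1 ≤ C₁) {m₀ m₁ : ℕ}
    (hm₀ : 1 ≤ m₀) (hm₁ : 1 ≤ m₁) :
    ∃ (A : ℝ) (ρ r Δ B : ℕ → ℕ), ∀ᶠ n : ℕ in atTop,
      (6 * n : ℝ) < (1 + ε) ^ (ρ n) ∧
      (4 * (ρ n : ℝ) + 5) * (10 / 11 : ℝ) ^ (r n) ≤ 1 ∧
      6 * (n : ℝ) * (1 / 2 : ℝ) ^ (Δ n / m₀) ≤ 1 / n ∧
      6 * (n : ℝ) * C₁ ^ (8 * ρ n + 11) * (1 / 2 : ℝ) ^ (B n / m₁) ≤ 1 / n ∧
      (B n : ℝ) ≤ A * Real.log n ∧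
      2 * Real.sqrt n * ((Δ n : ℝ) + 1) ^ (r n + 1) ≤ θ / 2 * n ∧
      10 ^ 8 * ((Δ n : ℝ) + 1) ^ 14 * C ≤ (n : ℝ) ^ (1 / 4 : ℝ) := by
  have hl : 0 < Real.log (1 + ε) := Real.log_pos (by linarith)
  obtain ⟨a, ha⟩ := exists_nat_gt (3 / Real.log (1 + ε))
  have ha3 : 3 ≤ a * Real.log (1 + ε) := by
    rw [div_lt_iff₀ hl] at ha
    exact ha.le
  have hl2 : 0 < Real.log 2 := Real.log_pos (by norm_num)
  have hlC : 0 ≤ Real.log C₁ := Real.log_nonneg hC₁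
  obtain ⟨c', hc'⟩ := exists_nat_gt (((8 * a + 11) * Real.log C₁ + 3) / Real.log 2)
  have hc3 : (8 * a + 11) * Real.log C₁ + 3 ≤ c' * Real.log 2 := by
    rw [div_lt_iff₀ hl2] at hc'
    exact hc'.le
  set K : ℝ := 15 * m₀ + 12 * a + 6 with hK
  have hK6 : 6 ≤ K := by
    have h1 : (0 : ℝ) ≤ m₀ := Nat.cast_nonneg _
    have h2 : (0 : ℝ) ≤ a := Nat.cast_nonneg _
    rw [hK]
    linarith
  have hK0 : 0 < K := by linarith
  have e1 : ∀ᶠ n : ℕ in atTop, 1 ≤ Real.log n :=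
    (Real.tendsto_log_atTop.comp tendsto_natCast_atTop_atTop).eventually (eventually_ge_atTop 1)
  have e2 := par_ev hK0
  have hc0 : 0 < 1 / (10 ^ 8 * K ^ 14 * C) := by positivity
  have e3 := par_ev2 hc0
  have e4 : ∀ᶠ n : ℕ in atTop, 4 / θ ≤ (n : ℝ) ^ (1 / 4 : ℝ) :=
    ((tendsto_rpow_atTop (show (0 : ℝ) < 1 / 4 by norm_num)).comp
      tendsto_natCast_atTop_atTop).eventually (eventually_ge_atTop _)
  refine ⟨3 * m₁ * c', fun n => a * (⌈Real.log n⌉₊ + 1),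
    fun n => ⌈11 * Real.log (4 * ((a * (⌈Real.log n⌉₊ + 1) : ℕ) : ℝ) + 5)⌉₊,
    fun n => m₀ * (5 * (⌈Real.log n⌉₊ + 1)), fun n => m₁ * (c' * (⌈Real.log n⌉₊ + 1)), ?_⟩
  filter_upwards [e1, e2, e3, e4] with n h1 h2 h3 h4
  have hn : 1 ≤ n := by
    rcases Nat.eq_zero_or_pos n with h | h
    · rw [h] at h1
      simp at h1
      linarith
    · exact h
  have hn' : (1 : ℝ) ≤ n := by exact_mod_cast hn
  have hℓ1 : Real.log n + 1 ≤ ((⌈Real.log n⌉₊ + 1 : ℕ) : ℝ) := by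
    push_cast
    have := Nat.le_ceil (Real.log n)
    linarith
  have hℓ2 : ((⌈Real.log n⌉₊ + 1 : ℕ) : ℝ) ≤ 3 * Real.log n := by
    push_cast
    have := Nat.ceil_lt_add_one (show 0 ≤ Real.log n by linarith)
    linarith
  generalize (⌈Real.log n⌉₊ + 1) = ℓ at *
  have hℓ3 : (1 : ℝ) ≤ ℓ := by linarith
  have hk1 : (0 : ℝ) ≤ m₀ := Nat.cast_nonneg _
  have hk2 : (0 : ℝ) ≤ a := Nat.cast_nonneg _
  have hΔ : ((m₀ * (5 * ℓ) : ℕ) : ℝ) + 1 ≤ K * Real.log n := by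
    push_cast
    rw [hK]
    have h5 : (m₀ : ℝ) * (5 * ℓ) ≤ m₀ * (5 * (3 * Real.log n)) := by gcongr
    have h6 : 0 ≤ (a : ℝ) * Real.log n := by positivity
    nlinarith
  have hρ : 4 * ((a * ℓ : ℕ) : ℝ) + 5 ≤ K * Real.log n := by
    push_cast
    rw [hK]
    have h5 : (a : ℝ) * ℓ ≤ a * (3 * Real.log n) := by gcongr
    have h6 : 0 ≤ (m₀ : ℝ) * Real.log n := by positivity
    nlinarith
  refine ⟨?_, ?_, ?_, ?_, ?_, ?_, ?_⟩
  · rw [par_pow (by linarith) (a * ℓ)]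
    have h5 : 3 * (ℓ : ℝ) ≤ ((a * ℓ : ℕ) : ℝ) * Real.log (1 + ε) := by
      push_cast
      nlinarith
    have h6 := par_exp hn hℓ1
    have h7 : (n : ℝ) ≤ n ^ 3 := by
      have : (1 : ℝ) ≤ (n : ℝ) ^ 2 := one_le_pow₀ hn'
      nlinarith
    calc (6 * n : ℝ) < 8 * n ^ 3 := by linarith
      _ ≤ Real.exp (3 * ℓ) := h6
      _ ≤ _ := Real.exp_le_exp.2 h5
  · exact par_eleven _ (Nat.cast_nonneg _)
  · rw [Nat.mul_div_cancel_left _ hm₀, par_half]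
    refine le_trans ?_ (par_neg hn hℓ1)
    have h5 : -(((5 * ℓ : ℕ) : ℝ) * Real.log 2) ≤ -(3 * (ℓ : ℝ)) := by
      push_cast
      have := par_log2
      nlinarith
    exact mul_le_mul_of_nonneg_left (Real.exp_le_exp.2 h5) (by positivity)
  · rw [Nat.mul_div_cancel_left _ hm₁, par_half, par_pow (by linarith) (8 * (a * ℓ) + 11),
      mul_assoc, ← Real.exp_add]
    refine le_trans ?_ (par_neg hn hℓ1)
    have h5 : ((8 * (a * ℓ) + 11 : ℕ) : ℝ) * Real.log C₁ + -(((c' * ℓ : ℕ) : ℝ) * Real.log 2) ≤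
        -(3 * (ℓ : ℝ)) := by
      push_cast
      have h6 : (11 : ℝ) * Real.log C₁ ≤ 11 * Real.log C₁ * ℓ := by
        have : 0 ≤ 11 * Real.log C₁ := by positivity
        nlinarith
      have h7 := mul_le_mul_of_nonneg_right hc3 (show (0 : ℝ) ≤ ℓ by linarith)
      nlinarith
    exact mul_le_mul_of_nonneg_left (Real.exp_le_exp.2 h5) (by positivity)
  · push_cast
    have h5 : (m₁ : ℝ) * (c' * ℓ) ≤ m₁ * (c' * (3 * Real.log n)) := by gcongr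
    linarith
  · exact par_six hn hθ (by linarith) h1 (Nat.cast_nonneg _) hΔ (Nat.cast_nonneg _) hρ h2 h4
  · have h5 : (((m₀ * (5 * ℓ) : ℕ) : ℝ) + 1) ^ 14 ≤ (K * Real.log n) ^ 14 := by
      apply pow_le_pow_left₀ (by positivity) hΔ
    calc 10 ^ 8 * (((m₀ * (5 * ℓ) : ℕ) : ℝ) + 1) ^ 14 * C
        ≤ 10 ^ 8 * (K * Real.log n) ^ 14 * C := by gcongr
      _ = (10 ^ 8 * K ^ 14 * C) * Real.log n ^ 14 := by ring
      _ ≤ (10 ^ 8 * K ^ 14 * C) * (1 / (10 ^ 8 * K ^ 14 * C) * (n : ℝ) ^ (1 / 4 : ℝ)) := by gcongr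
      _ = (n : ℝ) ^ (1 / 4 : ℝ) := by field_simp

end SST
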