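import Pool.Agent.SST.E.Pos
import Pool.Agent.SST.E.NearC
import Pool.Agent.SST.E.Param
import Pool.Agent.SST.S.BadCount
import Pool.Agent.SST.D.Det

/-!
# SST-E-Whp: whp there is a simple separating non-contractible cycle of logarithmic length
* `exceptional` (one `n`): let `T ∈ Trn n g`, all degrees at most `Δ`, `BadV.ncard ≤ √n`, and no
  unicellular `K` with `card K ≤ 8ρ + 10` and `card (DU (VK K)) > B`.  `det_main` applies with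
  `hN`: `near_card` gives `ncard ≤ 2 √n (Δ+1)^(r+1) ≤ θ/2 n`, and `2 ε 6 n = 12 ε n ≤ θ/2 n` for
  `ε = θ/24`, `2 g > θ n`; `hB`: `6 B < 2 g`.  So the exceptional `T` are in the union of
  `F₁ = {T ∈ Trn n g : some deg ≥ Δ + 1}` (its ncard is at most that of the set of pairs in `HypTail`
  with `D = Δ + 1`), `F₂ = {T ∈ Trn n g, degrees ≤ Δ, BadV.ncard > √n}` (Markov from `bad_count` with
  `g - 1 + 1 = g`), `F₃` (`HypCont` with `N = 8ρ + 10`).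
* `whp`: constants: `C` from `ratios`, `m₀` from `HypTail C`, `C₁, m₁` from `HypCont C`, `ε = θ/24`,
  `params`.  `card F₁/(6n)! ≤ nu/n`, `card F₂/(6n)! ≤ (1/√n) 10^8 (Δ+1)^14 n² nu (n+1) (g-1) ≤
  n^(-1/2) n^(1/4) nu`, `card F₃/(6n)! ≤ nu/n`.  `HasSSC` is monotone in the length
  (`B n ≤ A log n`).  Eventually `2 g n > θ n` and `6 B n < 2 g n`.  The statement is in terms of
  `ncard`: `nu n g * (6n)! = (Trn n g).ncard`.
-/

namespace SST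

open Filter Topology Classical

theorem exceptional {n g : ℕ} (hn : 1 ≤ n) {θ : ℝ} (hθ : 0 < θ) (hg : θ * n < 2 * g) {ρ r Δ B : ℕ}
    (hρ : (6 * n : ℝ) < (1 + θ / 24) ^ ρ) (hr : (4 * (ρ : ℝ) + 5) * (10 / 11 : ℝ) ^ r ≤ 1)
    (hN : 2 * Real.sqrt n * ((Δ : ℝ) + 1) ^ (r + 1) ≤ θ / 2 * n) (hB : 6 * B < 2 * g)
    {T : Tri (Fin (6 * n))} (hT : T ∈ Trn n g) (hΔ : ∀ d, T.deg d ≤ Δ)
    (hbad : (T.BadV.ncard : ℝ) ≤ Real.sqrt n)
    (hK : ∀ K : Finset (Fin (6 * n)), T.AC K → K.Nonempty → T.Unicell K → K.card ≤ 8 * ρ + 10 →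
      (T.DU (T.VK K)).card ≤ B) : T.HasSSC B := by
  haveI : Nonempty (Fin (6 * n)) := ⟨⟨0, by omega⟩⟩
  have hnear := T.near_card hΔ T.BadV r
  have hnear' : (({d | T.Near T.BadV r (T.tl d) ∨ T.Near T.BadV r (T.hd d)}.ncard : ℕ) : ℝ) ≤
      θ / 2 * n := by
    have h1 : (({d | T.Near T.BadV r (T.tl d) ∨ T.Near T.BadV r (T.hd d)}.ncard : ℕ) : ℝ) ≤
        2 * (T.BadV.ncard : ℝ) * ((Δ : ℝ) + 1) ^ (r + 1) := by
      exact_mod_cast hnear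
    refine h1.trans (le_trans ?_ hN)
    gcongr
  refine T.det_main hT.1 (Fintype.card_fin _) hT.2 (ε := θ / 24) (by positivity) ρ hρ r hr ?_ B hB
    hK
  linarith

private theorem whp_mono {D : Type} {T : Tri D} {L L' : ℝ} (h : T.HasSSC L) (hL : L ≤ L') :
    T.HasSSC L' := by
  obtain ⟨c, h1, h2, h3, h4, h5, h6⟩ := h
  exact ⟨c, h1, h2, h3, h4, h5, h6.trans hL⟩

private theorem whp_markov {ι : Type*} [Fintype ι] (p : ι → Prop) (dec : DecidablePred p)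
    (f : ι → ℝ) (hf : ∀ i, 0 ≤ f i) (c : ℝ) :
    c * ({i | p i ∧ c < f i}.ncard : ℝ) ≤ ∑ i, @ite ℝ (p i) (dec i) (f i) 0 := by
  have h1 : ({i | p i ∧ c < f i}.ncard : ℝ) =
      ((Finset.univ.filter fun i => p i ∧ c < f i).card : ℝ) := by
    rw [← Set.ncard_coe_finset]
    congr 2
    ext i
    simp
  rw [h1, mul_comm, ← nsmul_eq_mul, ← Finset.sum_const]
  refine le_trans ?_ (Finset.sum_le_sum_of_subset_of_nonneg
    (Finset.subset_univ (Finset.univ.filter fun i => p i ∧ c < f i)) ?_)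
  · apply Finset.sum_le_sum
    intro i hi
    rw [Finset.mem_filter] at hi
    rw [if_pos hi.2.1]
    exact hi.2.2.le
  · intro i _ _
    by_cases h : p i
    · rw [if_pos h]
      exact hf i
    · rw [if_neg h]

private theorem whp_one {n g : ℕ} (hn : 1 ≤ n) {θ C C₁ L : ℝ} (hθ : 0 < θ)
    (hg : θ * n < 2 * g) {ρ r Δ B m₀ m₁ : ℕ} (hg1 : 1 ≤ g) (hnu : 0 < nu n g)
    (hr2 : (n : ℝ) ^ 2 * nu (n + 1) (g - 1) ≤ C * nu n g)
    (t1 : ({x : Tri (Fin (6 * n)) × Fin (6 * n) | x.1 ∈ Trn n g ∧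
      Δ + 1 ≤ x.1.deg x.2}.ncard : ℝ) / (6 * n).factorial ≤
        6 * n * nu n g * (1 / 2 : ℝ) ^ ((Δ + 1 - 1) / m₀))
    (t3 : ({T : Tri (Fin (6 * n)) | T ∈ Trn n g ∧ ∃ K : Finset (Fin (6 * n)), T.AC K ∧
      K.Nonempty ∧ T.Unicell K ∧ K.card ≤ 8 * ρ + 10 ∧
        B < (T.DU (T.VK K)).card}.ncard : ℝ) / (6 * n).factorial ≤
          6 * n * nu n g * C₁ ^ (8 * ρ + 10 + 1) * (1 / 2 : ℝ) ^ (B / m₁))
    (p1 : (6 * n : ℝ) < (1 + θ / 24) ^ ρ) (p2 : (4 * (ρ : ℝ) + 5) * (10 / 11 : ℝ) ^ r ≤ 1)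
    (p3 : 6 * (n : ℝ) * (1 / 2 : ℝ) ^ (Δ / m₀) ≤ 1 / n)
    (p4 : 6 * (n : ℝ) * C₁ ^ (8 * ρ + 11) * (1 / 2 : ℝ) ^ (B / m₁) ≤ 1 / n)
    (p5 : (B : ℝ) ≤ L)
    (p6 : 2 * Real.sqrt n * ((Δ : ℝ) + 1) ^ (r + 1) ≤ θ / 2 * n)
    (p7 : 10 ^ 8 * ((Δ : ℝ) + 1) ^ 14 * C ≤ (n : ℝ) ^ (1 / 4 : ℝ))
    (hB : 6 * B < 2 * g) :
    ({T | T ∈ Trn n g ∧ ¬ T.HasSSC L}.ncard : ℝ) ≤
      (2 / n + (n : ℝ) ^ (-(1 / 4) : ℝ)) * (Trn n g).ncard := by
  have hn' : (0 : ℝ) < n := by exact_mod_cast hn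
  have hfac : (0 : ℝ) < (6 * n).factorial := by exact_mod_cast Nat.factorial_pos _
  have hTn : ((Trn n g).ncard : ℝ) = nu n g * (6 * n).factorial := by
    unfold nu
    rw [div_mul_cancel₀ _ hfac.ne']
  set N : ℝ := nu n g * (6 * n).factorial with hN
  have hN0 : 0 < N := mul_pos hnu hfac
  set F₁ : Set (Tri (Fin (6 * n))) := {T | T ∈ Trn n g ∧ ∃ d, Δ + 1 ≤ T.deg d} with hF₁
  set F₂ : Set (Tri (Fin (6 * n))) := {T | (T ∈ Trn n (g - 1 + 1) ∧ ∀ d, T.deg d ≤ Δ) ∧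
    Real.sqrt n < (T.BadV.ncard : ℝ)} with hF₂
  set F₃ : Set (Tri (Fin (6 * n))) := {T : Tri (Fin (6 * n)) | T ∈ Trn n g ∧
    ∃ K : Finset (Fin (6 * n)), T.AC K ∧ K.Nonempty ∧ T.Unicell K ∧ K.card ≤ 8 * ρ + 10 ∧
      B < (T.DU (T.VK K)).card} with hF₃
  have hsub : {T | T ∈ Trn n g ∧ ¬ T.HasSSC L} ⊆ F₁ ∪ F₂ ∪ F₃ := by
    rintro T ⟨hT, hno⟩
    by_contra hcon
    rw [Set.mem_union, Set.mem_union, not_or, not_or] at hcon
    obtain ⟨⟨h1, h2⟩, h3⟩ := hcon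
    apply hno
    have hΔ : ∀ d, T.deg d ≤ Δ := by
      intro d
      by_contra h
      exact h1 ⟨hT, d, by omega⟩
    have hbad : (T.BadV.ncard : ℝ) ≤ Real.sqrt n := by
      by_contra h
      refine h2 ⟨⟨?_, hΔ⟩, not_le.1 h⟩
      rw [Nat.sub_add_cancel hg1]
      exact hT
    refine whp_mono (exceptional hn hθ hg p1 p2 p6 hB hT hΔ hbad ?_) p5
    intro K k1 k2 k3 k4
    by_contra h
    exact h3 ⟨hT, K, k1, k2, k3, k4, not_le.1 h⟩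
  have hb1 : (F₁.ncard : ℝ) ≤ 1 / n * N := by
    have h1 : F₁ ⊆ Prod.fst '' {x : Tri (Fin (6 * n)) × Fin (6 * n) | x.1 ∈ Trn n g ∧
        Δ + 1 ≤ x.1.deg x.2} := by
      rintro T ⟨hT, d, hd⟩
      exact ⟨(T, d), ⟨hT, hd⟩, rfl⟩
    have h2 : F₁.ncard ≤ {x : Tri (Fin (6 * n)) × Fin (6 * n) | x.1 ∈ Trn n g ∧
        Δ + 1 ≤ x.1.deg x.2}.ncard :=
      (Set.ncard_le_ncard h1 (Set.toFinite _)).trans (Set.ncard_image_le (Set.toFinite _))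
    have h3 : (F₁.ncard : ℝ) ≤ ({x : Tri (Fin (6 * n)) × Fin (6 * n) | x.1 ∈ Trn n g ∧
        Δ + 1 ≤ x.1.deg x.2}.ncard : ℝ) := by exact_mod_cast h2
    rw [div_le_iff₀ hfac, Nat.add_sub_cancel] at t1
    refine h3.trans (t1.trans ?_)
    calc 6 * (n : ℝ) * nu n g * (1 / 2 : ℝ) ^ (Δ / m₀) * (6 * n).factorial
        = (6 * (n : ℝ) * (1 / 2 : ℝ) ^ (Δ / m₀)) * N := by rw [hN]; ring
      _ ≤ 1 / n * N := mul_le_mul_of_nonneg_right p3 hN0.le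
  have hb3 : (F₃.ncard : ℝ) ≤ 1 / n * N := by
    rw [div_le_iff₀ hfac] at t3
    refine t3.trans ?_
    calc 6 * (n : ℝ) * nu n g * C₁ ^ (8 * ρ + 10 + 1) * (1 / 2 : ℝ) ^ (B / m₁) *
        (6 * n).factorial
        = (6 * (n : ℝ) * C₁ ^ (8 * ρ + 11) * (1 / 2 : ℝ) ^ (B / m₁)) * N := by rw [hN]; ring
      _ ≤ 1 / n * N := mul_le_mul_of_nonneg_right p4 hN0.le
  have hb2 : (F₂.ncard : ℝ) ≤ (n : ℝ) ^ (-(1 / 4) : ℝ) * N := by
    have h1 := bad_count (n := n) (g := g - 1) (Δ := Δ) hn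
    rw [div_le_iff₀ hfac] at h1
    have h2 := (whp_markov _ _ _ (fun T => Nat.cast_nonneg _) (Real.sqrt n)).trans h1
    have hq : 0 < (n : ℝ) ^ (1 / 4 : ℝ) := by positivity
    have hq4 : ((n : ℝ) ^ (1 / 4 : ℝ)) ^ 4 = n := by
      rw [← Real.rpow_natCast, ← Real.rpow_mul hn'.le]
      norm_num
    have hs : Real.sqrt n = ((n : ℝ) ^ (1 / 4 : ℝ)) ^ 2 := by
      have h3 : (n : ℝ) = (((n : ℝ) ^ (1 / 4 : ℝ)) ^ 2) ^ 2 := by
        rw [← pow_mul]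
        exact hq4.symm
      conv_lhs => rw [h3]
      rw [Real.sqrt_sq (by positivity)]
    have hinv : (n : ℝ) ^ (-(1 / 4) : ℝ) = ((n : ℝ) ^ (1 / 4 : ℝ))⁻¹ := Real.rpow_neg hn'.le _
    set q : ℝ := (n : ℝ) ^ (1 / 4 : ℝ) with hqdef
    have h3 : Real.sqrt n * (F₂.ncard : ℝ) ≤ q * N := by
      refine h2.trans ?_
      have hK0 : (0 : ℝ) ≤ 10 ^ 8 * ((Δ : ℝ) + 1) ^ 14 := by positivity
      calc 10 ^ 8 * ((Δ : ℝ) + 1) ^ 14 * (n : ℝ) ^ 2 * nu (n + 1) (g - 1) * (6 * n).factorial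
          = 10 ^ 8 * ((Δ : ℝ) + 1) ^ 14 * ((n : ℝ) ^ 2 * nu (n + 1) (g - 1)) *
            (6 * n).factorial := by ring
        _ ≤ 10 ^ 8 * ((Δ : ℝ) + 1) ^ 14 * (C * nu n g) * (6 * n).factorial :=
            mul_le_mul_of_nonneg_right (mul_le_mul_of_nonneg_left hr2 hK0) hfac.le
        _ = (10 ^ 8 * ((Δ : ℝ) + 1) ^ 14 * C) * N := by rw [hN]; ring
        _ ≤ q * N := mul_le_mul_of_nonneg_right p7 hN0.le
    rw [hs] at h3
    rw [hinv]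
    have h4 : q * (q * (F₂.ncard : ℝ)) ≤ q * N := by
      calc q * (q * (F₂.ncard : ℝ)) = q ^ 2 * (F₂.ncard : ℝ) := by ring
        _ ≤ q * N := h3
    have h5 : q * (F₂.ncard : ℝ) ≤ N := le_of_mul_le_mul_left h4 hq
    calc (F₂.ncard : ℝ) = q⁻¹ * (q * (F₂.ncard : ℝ)) := by
          rw [← mul_assoc, inv_mul_cancel₀ hq.ne', one_mul]
      _ ≤ q⁻¹ * N := mul_le_mul_of_nonneg_left h5 (by positivity)
  have hc : {T | T ∈ Trn n g ∧ ¬ T.HasSSC L}.ncard ≤ F₁.ncard + F₂.ncard + F₃.ncard := by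
    refine (Set.ncard_le_ncard hsub (Set.toFinite _)).trans ?_
    refine (Set.ncard_union_le _ _).trans ?_
    exact Nat.add_le_add_right (Set.ncard_union_le _ _) _
  have hc' : ({T | T ∈ Trn n g ∧ ¬ T.HasSSC L}.ncard : ℝ) ≤ F₁.ncard + F₂.ncard + F₃.ncard := by
    exact_mod_cast hc
  rw [hTn]
  calc ({T | T ∈ Trn n g ∧ ¬ T.HasSSC L}.ncard : ℝ) ≤ F₁.ncard + F₂.ncard + F₃.ncard := hc'
    _ ≤ 1 / n * N + (n : ℝ) ^ (-(1 / 4) : ℝ) * N + 1 / n * N := by linarith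
    _ = (2 / n + (n : ℝ) ^ (-(1 / 4) : ℝ)) * N := by ring

theorem whp (h₁ : HypOne) (h₂ : HypTwo) (h₃ : HypTail) (h₄ : HypCont) {θ : ℝ} (hθ : 0 < θ)
    (hθ' : θ < 1 / 2) :
    ∃ A : ℝ, ∀ g : ℕ → ℕ, Tendsto (fun n => (g n : ℝ) / n) atTop (𝓝 θ) →
      ∀ᶠ n : ℕ in atTop, 0 < (Trn n (g n)).ncard ∧
        ({T | T ∈ Trn n (g n) ∧ ¬ T.HasSSC (A * Real.log n)}.ncard : ℝ) ≤
          (2 / n + (n : ℝ) ^ (-(1 / 4) : ℝ)) * (Trn n (g n)).ncard := by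
  obtain ⟨C, hC, hrat⟩ := ratios h₁ h₂ hθ hθ'
  obtain ⟨m₀, hm₀, hTl⟩ := h₃ C hC
  obtain ⟨C₁, m₁, hC₁, hm₁, hCt⟩ := h₄ C hC
  obtain ⟨A, ρ, r, Δ, B, hpar⟩ := params (θ := θ) (ε := θ / 24) (C := C) (C₁ := C₁) hθ
    (by positivity) hC hC₁ hm₀ hm₁
  refine ⟨A, fun g hg => ?_⟩
  have e1 : ∀ᶠ n : ℕ in atTop, θ / 2 < (g n : ℝ) / n :=
    hg.eventually (lt_mem_nhds (show θ / 2 < θ by linarith))
  have e2 : ∀ᶠ n : ℕ in atTop, Real.log n ≤ θ / (6 * |A| + 1) * n := by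
    have h1 := Real.isLittleO_log_id_atTop.bound (c := θ / (6 * |A| + 1)) (by positivity)
    have h2 := tendsto_natCast_atTop_atTop (R := ℝ) |>.eventually h1
    filter_upwards [h2] with n h3
    rw [id, Real.norm_eq_abs, Real.norm_of_nonneg (Nat.cast_nonneg n)] at h3
    exact (le_abs_self _).trans h3
  filter_upwards [hrat g hg, hpar, e1, e2, eventually_ge_atTop 1] with n h3 h4 h5 h6 hn
  obtain ⟨r1, r2, r3, r4⟩ := h3
  obtain ⟨p1, p2, p3, p4, p5, p6, p7⟩ := h4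
  have hn' : (0 : ℝ) < n := by exact_mod_cast hn
  have hfac : (0 : ℝ) < (6 * n).factorial := by exact_mod_cast Nat.factorial_pos _
  refine ⟨?_, ?_⟩
  · have h7 : 0 < ((Trn n (g n)).ncard : ℝ) := by
      have h8 : nu n (g n) = (Trn n (g n)).ncard / (6 * n).factorial := rfl
      rw [h8] at r2
      by_contra h9
      have h10 : ((Trn n (g n)).ncard : ℝ) = 0 :=
        le_antisymm (not_lt.1 h9) (Nat.cast_nonneg _)
      rw [h10, zero_div] at r2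
      exact lt_irrefl _ r2
    exact_mod_cast h7
  · have hg2 : θ * n < 2 * (g n : ℝ) := by
      rw [lt_div_iff₀ hn'] at h5
      linarith
    have hB : 6 * B n < 2 * g n := by
      have h7 : 6 * (B n : ℝ) ≤ θ * n := by
        have h8 : (0 : ℝ) ≤ 6 * |A| + 1 := by positivity
        have hlog : 0 ≤ Real.log n := Real.log_nonneg (by exact_mod_cast hn)
        have h9 : 6 * (B n : ℝ) ≤ (6 * |A| + 1) * Real.log n := by
          have h10 : A * Real.log n ≤ |A| * Real.log n :=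
            mul_le_mul_of_nonneg_right (le_abs_self A) hlog
          linarith
        refine h9.trans ((mul_le_mul_of_nonneg_left h6 h8).trans (le_of_eq ?_))
        field_simp
      have h11 : (6 * B n : ℝ) < 2 * g n := lt_of_le_of_lt h7 hg2
      exact_mod_cast h11
    exact whp_one hn hθ hg2 r1 r2 r4 (hTl n (g n) (Δ n + 1) hn r3)
      (hCt n (g n) (8 * ρ n + 10) (B n) hn r3) p1 p2 p3 p4 p5 p6 p7 hB

end SST
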